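import Pool.Agent.helper6.EV.Spec

/-!
# Module ev:MS1 (helper28): the real second difference
-/

set_option autoImplicit false

namespace Pool.Agent.EV

open N1f72dd46 Filter MeasureTheory Complex Metric Pool.Agent.helper6.LD

/-- the real integral -/
noncomputable def MS1_f (k : ℕ) (a : ℝ) : ℝ :=
  ∫ u in Set.Ioi (0 : ℝ), pe (u + a) * u ^ k * Real.exp (-4 * u)

theorem MS1_J (k : ℕ) (a : ℝ) : Jt ((4 : ℝ) : ℂ) k a = (MS1_f k a : ℂ) := by
  rw [Jt, MS1_f, ← integral_complex_ofReal]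
  refine integral_congr_ae (Filter.Eventually.of_forall fun u => ?_)
  simp only
  push_cast
  rfl

theorem MS1_shift (hSH : SH_stmt) (k : ℕ) (a : ℝ) (ha : |a| ≤ 1 / 2) :
    MS1_f k a = Real.exp (4 * a) *
      ∑ j ∈ Finset.range (k + 1), (k.choose j : ℝ) * (-a) ^ j * MS1_f (k - j) 0 := by
  have h := hSH ((4 : ℝ) : ℂ) k a (by simp) ha
  simp only [MS1_J] at h
  exact_mod_cast h

theorem MS1_nonneg (hIN : IN_stmt) (m : ℕ) : 0 ≤ MS1_f m 0 := by
  rw [MS1_f]
  apply setIntegral_nonneg measurableSet_Ioi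
  intro u hu
  have hu' : 0 < u := hu
  have h1 := (hIN.1 (u + 0)).1
  positivity

theorem MS1_le (hIN : IN_stmt) (m : ℕ) : MS1_f m 0 ≤ m.factorial / 3 ^ (m + 1) := by
  have h := hIN.2.2.2.2.2 m
  rw [MS1_f]
  simpa using h

theorem MS1_exp2 : Real.exp 2 ≤ 7.4 := by
  have h1 : Real.exp 2 = Real.exp 1 ^ 2 := by
    rw [← Real.exp_nat_mul]
    norm_num
  rw [h1]
  have h2 := Real.exp_one_lt_d9
  have h3 := Real.exp_pos 1
  nlinarith

theorem MS1 (hIN : IN_stmt) (hSH : SH_stmt) : MS1_stmt := by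
  intro k l hl0 hl
  have e1 : (∫ u in Set.Ioi (0 : ℝ), pe (u + l) * u ^ k * Real.exp (-4 * u)) = MS1_f k l := rfl
  have e2 : (∫ u in Set.Ioi (0 : ℝ), pe (u - l) * u ^ k * Real.exp (-4 * u)) = MS1_f k (-l) := rfl
  have e3 : (∫ u in Set.Ioi (0 : ℝ), pe u * u ^ k * Real.exp (-4 * u)) = MS1_f k 0 := by
    rw [MS1_f]
    simp
  rw [e1, e2, e3, MS1_shift hSH k l (by rw [abs_of_nonneg hl0]; exact hl),
    MS1_shift hSH k (-l) (by rw [abs_neg, abs_of_nonneg hl0]; exact hl)]
  set x : ℝ := Real.exp (4 * l) with hx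
  set y : ℝ := Real.exp (4 * -l) with hy
  have hx0 : 0 < x := Real.exp_pos _
  have hy0 : 0 < y := Real.exp_pos _
  have hx1 : x ≤ 7.4 := (Real.exp_le_exp.mpr (by linarith)).trans MS1_exp2
  have hy1 : y ≤ 1 := by
    rw [hy, Real.exp_le_one_iff]
    linarith
  have hyx : y ≤ x := Real.exp_le_exp.mpr (by linarith)
  have hxy : x * y = 1 := by
    rw [hx, hy, ← Real.exp_add]
    simp
  -- `x + y - 2 ≤ 16 l² x`
  have hq : x + y - 2 ≤ 16 * l ^ 2 * 7.4 := by
    have h1 : 1 - 4 * l ≤ y := by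
      have := Real.add_one_le_exp (4 * -l)
      linarith
    have h2 : x + y - 2 = x * (1 - y) ^ 2 := by
      have : x * (1 - y) ^ 2 = x - 2 * (x * y) + (x * y) * y := by ring
      rw [this, hxy]
      ring
    rw [h2]
    have h3 : (1 - y) ^ 2 ≤ (4 * l) ^ 2 := by
      apply pow_le_pow_left₀ (by linarith)
      linarith
    nlinarith [sq_nonneg (1 - y), sq_nonneg l]
  -- the terms
  set F : ℝ := k.factorial / 3 ^ (k + 1) with hF
  have hF0 : 0 < F := by positivity
  set T : ℕ → ℝ := fun j => (k.choose j : ℝ) * l ^ j * MS1_f (k - j) 0 * ((-1) ^ j * x + y) with hT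
  have hsum : x * ∑ j ∈ Finset.range (k + 1), (k.choose j : ℝ) * (-l) ^ j * MS1_f (k - j) 0 +
      y * ∑ j ∈ Finset.range (k + 1), (k.choose j : ℝ) * (-(-l)) ^ j * MS1_f (k - j) 0 =
      ∑ j ∈ Finset.range (k + 1), T j := by
    rw [Finset.mul_sum, Finset.mul_sum, ← Finset.sum_add_distrib]
    refine Finset.sum_congr rfl fun j _ => ?_
    simp only [hT]
    rw [neg_neg, neg_pow]
    ring
  rw [hsum]
  have hterm : ∀ j ≤ k, (k.choose j : ℝ) * l ^ j * MS1_f (k - j) 0 ≤ F * ((3 * l) ^ j / j.factorial) := by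
    intro j hj
    have h1 := MS1_le hIN (k - j)
    have h2 : (k.choose j : ℝ) * l ^ j * MS1_f (k - j) 0 ≤
        (k.choose j : ℝ) * l ^ j * ((k - j).factorial / 3 ^ (k - j + 1)) :=
      mul_le_mul_of_nonneg_left h1 (by positivity)
    refine h2.trans (le_of_eq ?_)
    have h3 : (k.choose j : ℝ) * (j.factorial : ℝ) * ((k - j).factorial : ℝ) = k.factorial := by
      exact_mod_cast Nat.choose_mul_factorial_mul_factorial hj
    have h4 : (3 : ℝ) ^ (k + 1) = 3 ^ (k - j + 1) * 3 ^ j := by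
      rw [← pow_add]
      congr 1
      omega
    rw [hF, h4, ← h3, mul_pow]
    have h5 : (j.factorial : ℝ) ≠ 0 := by positivity
    field_simp
  set D : ℕ → ℝ := fun j => match j with
    | 0 => MS1_f k 0 * (x + y)
    | 1 => 0
    | (i + 2) => F * (8.4 * (9 / 2 * l ^ 2)) * ((3 * l) ^ i / i.factorial) with hD
  have hD0 : D 0 = MS1_f k 0 * (x + y) := rfl
  have hD1 : D 1 = 0 := rfl
  have hD2 : ∀ i, D (i + 2) = F * (8.4 * (9 / 2 * l ^ 2)) * ((3 * l) ^ i / i.factorial) :=
    fun _ => rfl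
  have hf0 := MS1_nonneg hIN k
  have hDn : ∀ j, 0 ≤ D j := by
    intro j
    match j with
    | 0 =>
      rw [hD0]
      positivity
    | 1 => exact le_of_eq hD1.symm
    | (i + 2) =>
      rw [hD2]
      positivity
  have hTD : ∀ j ∈ Finset.range (k + 1), T j ≤ D j := by
    intro j hj
    have hjk : j ≤ k := by
      rw [Finset.mem_range] at hj
      omega
    have hn := MS1_nonneg hIN (k - j)
    have ha : 0 ≤ (k.choose j : ℝ) * l ^ j * MS1_f (k - j) 0 := by positivity
    have hb := hterm j hjk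
    match j with
    | 0 =>
      rw [hD0]
      simp [hT]
    | 1 =>
      rw [hD1]
      simp only [hT]
      apply mul_nonpos_of_nonneg_of_nonpos ha
      linarith
    | (i + 2) =>
      rw [hD2]
      simp only [hT]
      have h1 : (-1 : ℝ) ^ (i + 2) * x + y ≤ 8.4 := by
        have h2 : (-1 : ℝ) ^ (i + 2) ≤ 1 := by
          rcases neg_one_pow_eq_or ℝ (i + 2) with h | h <;> rw [h] <;> norm_num
        nlinarith
      have h3 : (3 * l) ^ (i + 2) / ((i + 2).factorial : ℝ) ≤
          9 / 2 * l ^ 2 * ((3 * l) ^ i / i.factorial) := by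
        have h4 : (2 : ℝ) * i.factorial ≤ (i + 2).factorial := by
          have h5 : 2 * i.factorial ≤ (i + 2).factorial := by
            rw [Nat.factorial_succ, Nat.factorial_succ, ← mul_assoc]
            apply Nat.mul_le_mul_right
            nlinarith
          exact_mod_cast h5
        have h6 : (0 : ℝ) < i.factorial := by positivity
        calc (3 * l) ^ (i + 2) / ((i + 2).factorial : ℝ)
            ≤ (3 * l) ^ (i + 2) / (2 * i.factorial) := by
              apply div_le_div_of_nonneg_left (by positivity) (by positivity) h4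
          _ = 9 / 2 * l ^ 2 * ((3 * l) ^ i / i.factorial) := by
              field_simp
              ring
      calc (k.choose (i + 2) : ℝ) * l ^ (i + 2) * MS1_f (k - (i + 2)) 0 * ((-1) ^ (i + 2) * x + y)
          ≤ (k.choose (i + 2) : ℝ) * l ^ (i + 2) * MS1_f (k - (i + 2)) 0 * 8.4 :=
            mul_le_mul_of_nonneg_left h1 ha
        _ ≤ F * ((3 * l) ^ (i + 2) / (i + 2).factorial) * 8.4 :=
            mul_le_mul_of_nonneg_right hb (by norm_num)
        _ ≤ F * (9 / 2 * l ^ 2 * ((3 * l) ^ i / i.factorial)) * 8.4 := by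
            apply mul_le_mul_of_nonneg_right _ (by norm_num)
            exact mul_le_mul_of_nonneg_left h3 hF0.le
        _ = F * (8.4 * (9 / 2 * l ^ 2)) * ((3 * l) ^ i / i.factorial) := by ring
  have hS : ∑ j ∈ Finset.range (k + 1), T j ≤ MS1_f k 0 * (x + y) +
      F * (8.4 * (9 / 2 * l ^ 2)) * 7.4 := by
    calc ∑ j ∈ Finset.range (k + 1), T j ≤ ∑ j ∈ Finset.range (k + 1), D j :=
          Finset.sum_le_sum hTD
      _ ≤ ∑ j ∈ Finset.range (k + 1 + 2), D j := by
          apply Finset.sum_le_sum_of_subset_of_nonneg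
          · intro j hj
            rw [Finset.mem_range] at hj ⊢
            omega
          · intro j _ _
            exact hDn j
      _ = ∑ i ∈ Finset.range (k + 1), D (i + 2) + D 1 + D 0 := by
          rw [Finset.sum_range_succ', Finset.sum_range_succ']
      _ = F * (8.4 * (9 / 2 * l ^ 2)) * ∑ i ∈ Finset.range (k + 1), (3 * l) ^ i / i.factorial +
          0 + MS1_f k 0 * (x + y) := by
          rw [hD1, hD0, Finset.mul_sum]
      _ ≤ _ := by
          have h1 : ∑ i ∈ Finset.range (k + 1), (3 * l) ^ i / (i.factorial : ℝ) ≤ Real.exp (3 * l) :=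
            Real.sum_le_exp_of_nonneg (by linarith) (k + 1)
          have h2 : Real.exp (3 * l) ≤ 7.4 :=
            (Real.exp_le_exp.mpr (by linarith)).trans MS1_exp2
          have h3 : F * (8.4 * (9 / 2 * l ^ 2)) * ∑ i ∈ Finset.range (k + 1),
              (3 * l) ^ i / (i.factorial : ℝ) ≤ F * (8.4 * (9 / 2 * l ^ 2)) * 7.4 :=
            mul_le_mul_of_nonneg_left (h1.trans h2) (by positivity)
          linarith
  have hfk : MS1_f k 0 ≤ F := MS1_le hIN k
  have hl2 : 0 ≤ l ^ 2 := sq_nonneg l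
  have h1 : MS1_f k 0 * (x + y - 2) ≤ F * (16 * l ^ 2 * 7.4) := by
    calc MS1_f k 0 * (x + y - 2) ≤ MS1_f k 0 * (16 * l ^ 2 * 7.4) :=
          mul_le_mul_of_nonneg_left hq hf0
      _ ≤ F * (16 * l ^ 2 * 7.4) := mul_le_mul_of_nonneg_right hfk (by positivity)
  have h2 : (k.factorial : ℝ) * (150 * l ^ 2 / 3 ^ k) = F * (450 * l ^ 2) := by
    have h5 : (3 : ℝ) ^ (k + 1) = 3 ^ k * 3 := pow_succ _ _
    rw [hF, h5]
    have h6 : (3 : ℝ) ^ k ≠ 0 := by positivity
    field_simp
    ring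
  rw [h2]
  have h3 : 0 ≤ F * l ^ 2 := by positivity
  nlinarith

end Pool.Agent.EV
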